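import Pool.Agent.W495.TA.Defs
import Pool.Agent.W547.HR.Defs

/-!
# Intersection numbers, numerically trivial classes, and systems of classes with the properties of
the classes of algebraic cycles, for abelian varieties over finite fields
-/

set_option autoImplicit false

namespace Pool.Agent.W547.DR

open Module Pool.Agent.W547.KB Pool.Agent.W547.HR Pool.Agent.W495.TA

variable {p : ℕ} [Fact p.Prime] {ν : PadicAlgCl p ≃+* ℂ}

/-- The class `z ∈ H^{2n}(Y)` is orthogonal to the system `Alg` generated by Tate classes of degree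
two and split Weil classes: the cup product of `z` with every class of complementary degree in this
system is zero. -/
def IsOrthogonal (Ω : Type) [Field Ω] [CharZero Ω] (Y : RedAV p ν) {n : ℕ}
    (z : (TM Ω Y) [⋀^Fin (2 * n)]→ₗ[Ω] Ω) : Prop :=
  ∀ (m : ℕ) (w : (TM Ω Y) [⋀^Fin (2 * m)]→ₗ[Ω] Ω), 2 * (n + m) = finrank Ω (TM Ω Y) →
    Alg Ω Y (Fin (2 * m)) w →
      ∀ v : Fin (2 * n) ⊕ Fin (2 * m) → TM Ω Y, altSum (times (fun u => z u) (fun u => w u)) v = 0

/-- The spaces `A n ⊆ H^{2n}(Y, Ω)` have the following properties of the spaces of the rational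
linear combinations of the classes of algebraic cycles of codimension `n` on `Y` over the extension
of degree `s` of the ground field:

* they consist of Tate classes;
* the Tate classes in the system `Alg`, generated by Tate classes of degree two and split Weil
  classes, are combinations of elements of `A n` with coefficients in `Ω` (theorems of Tate and
  Markman);
* intersection numbers are rational (`o` is the orientation). -/
structure IsCycleSystem (Ω : Type) [Field Ω] [CharZero Ω] (Y : RedAV p ν) (s : ℕ)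
    (A : ∀ n : ℕ, Submodule ℚ ((TM Ω Y) [⋀^Fin (2 * n)]→ₗ[Ω] Ω)) : Prop where
  tate : ∀ n, ∀ z ∈ A n, IsTateClass Ω Y s n z
  alg : ∀ n (z : (TM Ω Y) [⋀^Fin (2 * n)]→ₗ[Ω] Ω), Alg Ω Y (Fin (2 * n)) z →
    IsTateClass Ω Y s n z → z ∈ Submodule.span Ω (A n : Set ((TM Ω Y) [⋀^Fin (2 * n)]→ₗ[Ω] Ω))
  rational : ∃ o : (TM Ω Y) [⋀^Fin (finrank Ω (TM Ω Y))]→ₗ[Ω] Ω,
    ∀ (n m : ℕ) (e : Fin (2 * n) ⊕ Fin (2 * m) ≃ Fin (finrank Ω (TM Ω Y))), ∀ z ∈ A n, ∀ w ∈ A m,
      ∃ a : ℚ, ∀ v : Fin (finrank Ω (TM Ω Y)) → TM Ω Y,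
        altSum (times (fun u => z u) (fun u => w u)) (fun k => v (e k)) = (a : Ω) * o v

/-- The class `z ∈ A n` is numerically trivial: its intersection number with every class in `A m`,
`n + m = dim Y`, is zero. -/
def IsNumericallyTrivial {Ω : Type} [Field Ω] [CharZero Ω] {Y : RedAV p ν}
    (A : ∀ n : ℕ, Submodule ℚ ((TM Ω Y) [⋀^Fin (2 * n)]→ₗ[Ω] Ω)) {n : ℕ}
    (z : (TM Ω Y) [⋀^Fin (2 * n)]→ₗ[Ω] Ω) : Prop :=
  ∀ m, 2 * (n + m) = finrank Ω (TM Ω Y) → ∀ w ∈ A m,
    ∀ v : Fin (2 * n) ⊕ Fin (2 * m) → TM Ω Y, altSum (times (fun u => z u) (fun u => w u)) v = 0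

/-- The rank of the group of classes of algebraic cycles of codimension `n`, modulo numerical
equivalence or not (numerically trivial classes are zero), is equal to the dimension of the space
of Tate classes, for all systems `A` with the properties of the classes of algebraic cycles. -/
def RankEqual (Ω : Type) [Field Ω] [CharZero Ω] (Y : RedAV p ν) (s : ℕ) : Prop :=
  ∀ A : ∀ n : ℕ, Submodule ℚ ((TM Ω Y) [⋀^Fin (2 * n)]→ₗ[Ω] Ω), IsCycleSystem Ω Y s A → ∀ n : ℕ,
    (∀ z ∈ A n, IsNumericallyTrivial A z → z = 0) ∧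
      (∀ z : (TM Ω Y) [⋀^Fin (2 * n)]→ₗ[Ω] Ω, z ∈ Submodule.span Ω
        (A n : Set ((TM Ω Y) [⋀^Fin (2 * n)]→ₗ[Ω] Ω)) ↔ IsTateClass Ω Y s n z) ∧
      finrank ℚ (A n) = finrank Ω (Submodule.span Ω
        (A n : Set ((TM Ω Y) [⋀^Fin (2 * n)]→ₗ[Ω] Ω)))

end Pool.Agent.W547.DR
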