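import Pool.Agent.W547.DP.Pairing
import Pool.Agent.W547.HR.Defs

/-!
# A form of complementary degree with given eigenvalue and nonzero product
-/

set_option autoImplicit false
set_option linter.unusedSectionVars false

namespace Pool.Agent.W547.DR

open Equiv Module Pool.Agent.W547.HR

noncomputable section

variable {κ κ' : Type} [Fintype κ] [DecidableEq κ] [Fintype κ'] [DecidableEq κ']
  {K V : Type} [Field K] [CharZero K] [AddCommGroup V] [Module K V]

theorem permMatrix_eq' {n : Type*} [DecidableEq n] (σ : Equiv.Perm n) :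
    (Equiv.Perm.permMatrix K σ : Matrix n n K) =
      Matrix.of fun k l => if σ k = l then (1 : K) else 0 := by
  ext k l
  simp [Equiv.Perm.permMatrix, PEquiv.toMatrix_apply]

/-- The determinant form of the last coordinates of a basis. -/
def detForm (b : Basis (κ ⊕ κ') K V) : V [⋀^κ']→ₗ[K] K :=
  Matrix.detRowAlternating.compLinearMap (LinearMap.pi (fun l => b.coord (Sum.inr l)))

theorem detForm_apply (b : Basis (κ ⊕ κ') K V) (u : κ' → V) :
    detForm b u = Matrix.det (Matrix.of fun k l => b.coord (Sum.inr l) (u k)) := rfl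

theorem pairing_ne (b : Basis (κ ⊕ κ') K V) (f : V [⋀^κ]→ₗ[K] K)
    (hf : f (fun k => b (Sum.inl k)) ≠ 0) :
    altSum (times (fun u => f u) (fun u => detForm b u)) (fun s => b s) ≠ 0 := by
  classical
  have hsum : ∑ τ : Perm κ × Perm κ', f (fun k => b (Sum.inl k)) =
      ∑ σ : Perm (κ ⊕ κ'), ((Perm.sign σ : ℤ) : K) *
      (f (fun k => b (σ (Sum.inl k))) * detForm b (fun k => b (σ (Sum.inr k)))) := by
    refine Fintype.sum_of_injective (fun τ : Perm κ × Perm κ' => Perm.sumCongr τ.1 τ.2)
      ?_ _ _ ?_ ?_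
    · intro τ τ' h
      exact Equiv.Perm.sumCongrHom_injective h
    · intro σ hσ
      have h1 : ¬ Set.MapsTo σ (Set.range Sum.inr) (Set.range Sum.inr) := by
        intro h2
        apply hσ
        have h3 : Set.MapsTo σ (Set.range (Sum.inl : κ → κ ⊕ κ')) (Set.range Sum.inl) :=
          (Equiv.Perm.perm_mapsTo_inl_iff_mapsTo_inr σ).2 h2
        obtain ⟨τ, hτ⟩ := Equiv.Perm.mem_sumCongrHom_range_of_perm_mapsTo_inl h3
        exact ⟨τ, hτ⟩
      have h2 : ∃ k, ∃ k', σ (Sum.inr k) = Sum.inl k' := by
        by_contra h3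
        apply h1
        rintro _ ⟨k, rfl⟩
        rcases h4 : σ (Sum.inr k) with k' | k'
        · exact (h3 ⟨k, k', h4⟩).elim
        · exact ⟨k', rfl⟩
      obtain ⟨k, k', hk⟩ := h2
      have h3 : detForm b (fun k => b (σ (Sum.inr k))) = 0 := by
        rw [detForm_apply]
        refine Matrix.det_eq_zero_of_row_eq_zero k fun l => ?_
        rw [Matrix.of_apply, hk, Basis.coord_apply, Basis.repr_self, Finsupp.single_eq_of_ne]
        simp
      rw [h3, mul_zero, mul_zero]
    · rintro ⟨τ, τ'⟩
      have h1 : (fun k => b ((Perm.sumCongr τ τ') (Sum.inl k))) = fun k => b (Sum.inl (τ k)) := by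
        funext k
        rfl
      have h2 : detForm b (fun k => b ((Perm.sumCongr τ τ') (Sum.inr k))) =
          ((Perm.sign τ' : ℤ) : K) := by
        rw [detForm_apply, ← Matrix.det_permutation τ', permMatrix_eq']
        congr 1
        ext k l
        rw [Matrix.of_apply, Matrix.of_apply, Basis.coord_apply]
        change b.repr (b (Sum.inr (τ' k))) (Sum.inr l) = _
        rw [Basis.repr_self, Finsupp.single_apply]
        simp only [Sum.inr.injEq]
      have h3 : f (fun k => b (Sum.inl (τ k))) =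
          ((Perm.sign τ : ℤ) : K) * f (fun k => b (Sum.inl k)) := by
        have := f.map_perm (fun k => b (Sum.inl k)) τ
        rw [Units.smul_def, zsmul_eq_mul] at this
        exact this
      simp only
      rw [h2, h1, h3, Perm.sign_sumCongr]
      have h4 : ((Perm.sign τ : ℤ) : K) * ((Perm.sign τ : ℤ) : K) = 1 := by
        rw [← Int.cast_mul, ← Units.val_mul, Int.units_mul_self, Units.val_one, Int.cast_one]
      have h5 : ((Perm.sign τ' : ℤ) : K) * ((Perm.sign τ' : ℤ) : K) = 1 := by
        rw [← Int.cast_mul, ← Units.val_mul, Int.units_mul_self, Units.val_one, Int.cast_one]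
      push_cast
      linear_combination (-f (fun k => b (Sum.inl k))) * h4 * 1 - (f (fun k => b (Sum.inl k))) *
        ((Perm.sign τ : ℤ) : K) * ((Perm.sign τ : ℤ) : K) * h5
  have h1 : altSum (times (fun u => f u) (fun u => detForm b u)) (fun s => b s) =
      ∑ τ : Perm κ × Perm κ', f (fun k => b (Sum.inl k)) := hsum.symm
  rw [h1, Finset.sum_const, nsmul_eq_mul]
  refine mul_ne_zero ?_ hf
  rw [Finset.card_univ]
  exact Nat.cast_ne_zero.2 Fintype.card_ne_zero

theorem detForm_eig (b : Basis (κ ⊕ κ') K V) (F : V →ₗ[K] V) (μ : κ ⊕ κ' → K)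
    (hF : ∀ s, F (b s) = μ s • b s) (u : κ' → V) :
    detForm b (fun k => F (u k)) = (∏ l, μ (Sum.inr l)) * detForm b u := by
  have h1 : ∀ (s : κ ⊕ κ') (v : V), b.coord s (F v) = μ s * b.coord s v := by
    intro s v
    have h2 : (b.coord s) ∘ₗ F = μ s • b.coord s := by
      refine b.ext fun t => ?_
      rw [LinearMap.comp_apply, hF, map_smul, LinearMap.smul_apply]
      simp only [Basis.coord_apply, Basis.repr_self, smul_eq_mul]
      by_cases h : t = s
      · rw [h]
      · rw [Finsupp.single_eq_of_ne (Ne.symm h), mul_zero, mul_zero]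
    exact LinearMap.congr_fun h2 v
  rw [detForm_apply, detForm_apply]
  simp only [h1]
  have h3 : (Matrix.of fun k l => μ (Sum.inr l) * (b.coord (Sum.inr l)) (u k)) =
      (Matrix.of fun k l => (b.coord (Sum.inr l)) (u k)) *
        Matrix.diagonal (fun l => μ (Sum.inr l)) := by
    ext k l
    rw [Matrix.mul_diagonal, Matrix.of_apply, Matrix.of_apply, mul_comm]
  rw [h3, Matrix.det_mul, Matrix.det_diagonal, mul_comm]

/-- Duality for the eigenspaces. -/
theorem exists_dual {W : Type} [Fintype W] (e : Basis W K V) (F : V →ₗ[K] V) (μ : W → K)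
    (hF : ∀ w, F (e w) = μ w • e w) (c c' : K) (hc : c ≠ 0) (hμ : ∏ w, μ w = c * c')
    (hcard : Fintype.card κ + Fintype.card κ' = Fintype.card W) (f : V [⋀^κ]→ₗ[K] K)
    (hf : ∀ v, f (fun k => F (v k)) = c * f v) (hne : f ≠ 0) :
    ∃ g : V [⋀^κ']→ₗ[K] K, (∀ v, g (fun k => F (v k)) = c' * g v) ∧
      ∃ v : κ ⊕ κ' → V, altSum (times (fun u => f u) (fun u => g u)) v ≠ 0 := by
  classical
  obtain ⟨I, hI⟩ : ∃ I : κ → W, f (fun k => e (I k)) ≠ 0 := by
    by_contra h
    push Not at h
    apply hne
    refine AlternatingMap.coe_multilinearMap_injective ?_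
    refine Basis.ext_multilinear (fun _ => e) fun I => ?_
    exact h I
  have hinj : Function.Injective I := by
    intro k l hkl
    by_contra h
    exact hI (f.map_eq_zero_of_eq _ (congrArg e hkl) h)
  let eI : κ ≃ Set.range I := Equiv.ofInjective I hinj
  have hcc : Fintype.card κ' = Fintype.card ((Set.range I)ᶜ : Set W) := by
    rw [Fintype.card_compl_set, ← Fintype.card_congr eI]
    omega
  let eJ : κ' ≃ ((Set.range I)ᶜ : Set W) := Fintype.equivOfCardEq hcc
  let E : κ ⊕ κ' ≃ W := (Equiv.sumCongr eI eJ).trans (Equiv.Set.sumCompl (Set.range I))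
  have hEl : ∀ k, E (Sum.inl k) = I k := fun k => rfl
  let b : Basis (κ ⊕ κ') K V := e.reindex E.symm
  have hb : ∀ s, b s = e (E s) := fun s => by
    change e.reindex E.symm s = _
    rw [Basis.reindex_apply, Equiv.symm_symm]
  have hFb : ∀ s, F (b s) = μ (E s) • b s := fun s => by rw [hb, hF]
  have h1 : ∏ k, μ (I k) = c := by
    have h2 := hf (fun k => e (I k))
    simp only [hF] at h2
    rw [AlternatingMap.map_smul_univ, smul_eq_mul] at h2
    exact mul_right_cancel₀ hI h2
  have h2 : ∏ w, μ w = (∏ k, μ (I k)) * ∏ l, μ (E (Sum.inr l)) := by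
    rw [← Equiv.prod_comp E, Fintype.prod_sum_type]
    rfl
  have h3 : ∏ l, μ (E (Sum.inr l)) = c' := by
    rw [hμ, h1] at h2
    exact (mul_left_cancel₀ hc h2).symm
  refine ⟨detForm b, fun v => ?_, fun s => b s, pairing_ne b f ?_⟩
  · rw [detForm_eig b F (fun s => μ (E s)) hFb, h3]
  · have h4 : (fun k => b (Sum.inl k)) = fun k => e (I k) := funext fun k => by rw [hb, hEl]
    rw [h4]
    exact hI

end

end Pool.Agent.W547.DR
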