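import Pool.Agent.W547.DR.Rank

/-!
# There is a system of classes with the properties of the classes of algebraic cycles
-/

set_option autoImplicit false
set_option linter.unusedSectionVars false
set_option linter.unusedVariables false

namespace Pool.Agent.W547.DR

open NumberField Pool.Agent.H204R3.CM Pool.Agent.W547.KB Pool.Agent.W547.LD Pool.Agent.W547.HR
open Pool.Agent.W495.TA Module Equiv

noncomputable section

section forms

variable {K V W : Type} [Field K] [CharZero K] [AddCommGroup V] [Module K V] [Fintype W]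
  {κ κ' : Type} [Fintype κ] [DecidableEq κ] [Fintype κ'] [DecidableEq κ']

/-- The determinant forms of a basis. -/
def detI (e : Basis W K V) (I : κ → W) : V [⋀^κ]→ₗ[K] K :=
  Matrix.detRowAlternating.compLinearMap (LinearMap.pi (fun l => e.coord (I l)))

theorem detI_apply (e : Basis W K V) (I : κ → W) (u : κ → V) :
    detI e I u = Matrix.det (Matrix.of fun k l => e.coord (I l) (u k)) := rfl

/-- Expansion of a form in a basis. -/
theorem expand (b : Basis W K V) (f : V [⋀^κ]→ₗ[K] K) (v : κ → V) :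
    ∑ I : κ → W, f (fun k => b (I k)) * detI b I v = Fintype.card (Perm κ) * f v := by
  have h1 : ∀ u : κ → V, f u = ∑ I : κ → W, (∏ k, b.coord (I k) (u k)) *
      f (fun k => b (I k)) := by
    intro u
    have h3 : u = fun l => ∑ s, b.coord s (u l) • b s := by
      funext l
      exact (b.sum_repr (u l)).symm
    conv_lhs => rw [h3]
    change f.toMultilinearMap _ = _
    rw [MultilinearMap.map_sum]
    refine Finset.sum_congr rfl fun r _ => ?_
    rw [MultilinearMap.map_smul_univ, smul_eq_mul]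
    rfl
  have h2 : ∀ σ : Perm κ, f v = ((Perm.sign σ : ℤ) : K) * ∑ I : κ → W,
      (∏ k, b.coord (I k) (v (σ k))) * f (fun k => b (I k)) := by
    intro σ
    rw [← h1 (fun k => v (σ k))]
    have h3 : f (fun k => v (σ k)) = Perm.sign σ • f v := f.map_perm v σ
    rw [h3, Units.smul_def, zsmul_eq_mul, ← mul_assoc,
        ← Int.cast_mul, ← Units.val_mul, Int.units_mul_self, Units.val_one, Int.cast_one, one_mul]
  have h3 : (Fintype.card (Perm κ) : K) * f v = ∑ σ : Perm κ, ((Perm.sign σ : ℤ) : K) *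
      ∑ I : κ → W, (∏ k, b.coord (I k) (v (σ k))) * f (fun k => b (I k)) := by
    rw [← Finset.sum_congr rfl (fun σ _ => h2 σ), Finset.sum_const, Finset.card_univ,
      nsmul_eq_mul]
  rw [h3]
  simp only [Finset.mul_sum]
  rw [Finset.sum_comm]
  refine Finset.sum_congr rfl fun I _ => ?_
  rw [detI_apply, Matrix.det_apply', Finset.mul_sum]
  refine Finset.sum_congr rfl fun σ _ => ?_
  simp only [Matrix.of_apply]
  ring

theorem detI_eig (e : Basis W K V) (F : V →ₗ[K] V) (μ : W → K) (hF : ∀ w, F (e w) = μ w • e w)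
    (I : κ → W) (u : κ → V) : detI e I (fun k => F (u k)) = (∏ l, μ (I l)) * detI e I u := by
  classical
  have h1 : ∀ (s : W) (v : V), e.coord s (F v) = μ s * e.coord s v := by
    intro s v
    have h2 : (e.coord s) ∘ₗ F = μ s • e.coord s := by
      refine e.ext fun t => ?_
      rw [LinearMap.comp_apply, hF, map_smul, LinearMap.smul_apply]
      simp only [Basis.coord_apply, Basis.repr_self, smul_eq_mul]
      by_cases h : t = s
      · rw [h]
      · rw [Finsupp.single_eq_of_ne (Ne.symm h), mul_zero, mul_zero]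
    exact LinearMap.congr_fun h2 v
  rw [detI_apply, detI_apply]
  simp only [h1]
  have h3 : (Matrix.of fun k l => μ (I l) * (e.coord (I l)) (u k)) =
      (Matrix.of fun k l => (e.coord (I l)) (u k)) * Matrix.diagonal (fun l => μ (I l)) := by
    ext k l
    rw [Matrix.mul_diagonal, Matrix.of_apply, Matrix.of_apply, mul_comm]
  rw [h3, Matrix.det_mul, Matrix.det_diagonal, mul_comm]

theorem detI_rat (e : Basis W K V) (I J : κ → W) :
    ∃ a : ℚ, detI e I (fun k => e (J k)) = (a : K) := by
  classical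
  refine ⟨Matrix.det (Matrix.of fun k l => if J k = I l then (1 : ℚ) else 0), ?_⟩
  rw [detI_apply, Matrix.det_apply', Matrix.det_apply']
  push_cast
  refine Finset.sum_congr rfl fun σ _ => ?_
  congr 1
  refine Finset.prod_congr rfl fun k _ => ?_
  rw [Matrix.of_apply, Matrix.of_apply, Basis.coord_apply, Basis.repr_self, Finsupp.single_apply]
  split_ifs <;> simp

/-- The alternating sum as an alternating form. -/
def altForm (z : V [⋀^κ]→ₗ[K] K) (w : V [⋀^κ']→ₗ[K] K) : V [⋀^κ ⊕ κ']→ₗ[K] K :=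
  MultilinearMap.alternatization ((LinearMap.mul' K K).compMultilinearMap
    (MultilinearMap.domCoprod z.toMultilinearMap w.toMultilinearMap))

theorem altForm_apply (z : V [⋀^κ]→ₗ[K] K) (w : V [⋀^κ']→ₗ[K] K) (v : κ ⊕ κ' → V) :
    altForm z w v = altSum (times (fun u => z u) (fun u => w u)) v := by
  unfold altForm altSum times
  rw [MultilinearMap.alternatization_apply]
  refine Finset.sum_congr rfl fun σ _ => ?_
  rw [Units.smul_def, zsmul_eq_mul]
  rfl

/-- The alternating sum in top degree is a multiple of the determinant. -/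
theorem top_det {N : ℕ} (e : Basis (Fin N) K V) (E : κ ⊕ κ' ≃ Fin N) (z : V [⋀^κ]→ₗ[K] K)
    (w : V [⋀^κ']→ₗ[K] K) (v : Fin N → V) :
    altSum (times (fun u => z u) (fun u => w u)) (fun k => v (E k)) =
      altSum (times (fun u => z u) (fun u => w u)) (fun k => e (E k)) * e.det v := by
  have h1 : ∀ v : Fin N → V, ((altForm z w).domDomCongr E) v =
      altSum (times (fun u => z u) (fun u => w u)) (fun k => v (E k)) := by
    intro v
    rw [← altForm_apply]
    rfl
  have h2 := ((altForm z w).domDomCongr E).eq_smul_basis_det e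
  rw [← h1, ← h1]
  conv_lhs => rw [h2]
  rw [AlternatingMap.smul_apply, smul_eq_mul]

end forms

variable {p : ℕ} [Fact p.Prime] {ν : PadicAlgCl p ≃+* ℂ} {Ω : Type} [Field Ω] [CharZero Ω]
  {L : Type} [Field L] [NumberField L] {j : L →+* ℂ} {Y : RedAV p ν}

/-- The forms with rational values on an eigenbasis. -/
def ratSystem (Y : RedAV p ν) {W : Type} (e : Basis W Ω (TM Ω Y)) (s : ℕ) (n : ℕ) :
    Submodule ℚ ((TM Ω Y) [⋀^Fin (2 * n)]→ₗ[Ω] Ω) where
  carrier := {z | IsTateClass Ω Y s n z ∧ ∀ I : Fin (2 * n) → W, ∃ a : ℚ,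
    z (fun k => e (I k)) = (a : Ω)}
  zero_mem' := ⟨fun v => by simp, fun I => ⟨0, by simp⟩⟩
  add_mem' := fun {z w} hz hw => ⟨fun v => by
    rw [AlternatingMap.add_apply, AlternatingMap.add_apply, hz.1 v, hw.1 v, mul_add], fun I => by
    obtain ⟨a, ha⟩ := hz.2 I
    obtain ⟨b, hb⟩ := hw.2 I
    exact ⟨a + b, by rw [AlternatingMap.add_apply, ha, hb, Rat.cast_add]⟩⟩
  smul_mem' := fun c z hz => ⟨fun v => by
    rw [AlternatingMap.smul_apply, AlternatingMap.smul_apply, hz.1 v, Rat.smul_def, Rat.smul_def]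
    ring, fun I => by
    obtain ⟨a, ha⟩ := hz.2 I
    exact ⟨c * a, by rw [AlternatingMap.smul_apply, ha, Rat.smul_def, Rat.cast_mul]⟩⟩

theorem exists_system (jO : L →+* Ω) (hY : Big Y.X j) (s : ℕ) :
    ∃ A : ∀ n : ℕ, Submodule ℚ ((TM Ω Y) [⋀^Fin (2 * n)]→ₗ[Ω] Ω), IsCycleSystem Ω Y s A := by
  classical
  have := finite_wt hY
  let _ : Fintype (Wt Y.X L) := Fintype.ofFinite _
  obtain ⟨e, h1, h2⟩ := Pool.Agent.W67.TA.basis p ν Ω L j jO Y hY
  have hFe : ∀ w, (F Ω Y ^ s) (e w) = (jO (w.2 (Y.π w.1))) ^ s • e w :=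
    fun w => F_pow_e jO e h1 h2 w s
  refine ⟨fun n => ratSystem Y e s n, ?_⟩
  constructor
  · intro n z hz
    exact hz.1
  · intro n z _ hz
    have hne : (Fintype.card (Perm (Fin (2 * n))) : Ω) ≠ 0 := Nat.cast_ne_zero.2 Fintype.card_ne_zero
    have h3 : z = (Fintype.card (Perm (Fin (2 * n))) : Ω)⁻¹ •
        ∑ I : Fin (2 * n) → Wt Y.X L, z (fun k => e (I k)) • detI e I := by
      ext v
      let E : ((TM Ω Y) [⋀^Fin (2 * n)]→ₗ[Ω] Ω) →+ Ω :=
        { toFun := fun f => f v, map_zero' := rfl, map_add' := fun _ _ => rfl }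
      have h4 : (∑ I : Fin (2 * n) → Wt Y.X L, z (fun k => e (I k)) • detI e I) v =
        ∑ I : Fin (2 * n) → Wt Y.X L, (z (fun k => e (I k)) • detI e I) v := map_sum E _ _
      rw [AlternatingMap.smul_apply, h4]
      have h5 : ∑ I : Fin (2 * n) → Wt Y.X L, (z (fun k => e (I k)) • detI e I) v =
          (Fintype.card (Perm (Fin (2 * n))) : Ω) * z v := by
        rw [← expand e z v]
        refine Finset.sum_congr rfl fun I _ => ?_
        rw [AlternatingMap.smul_apply, smul_eq_mul]
      rw [h5, smul_eq_mul, ← mul_assoc, inv_mul_cancel₀ hne, one_mul]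
    rw [h3]
    refine Submodule.smul_mem _ _ (Submodule.sum_mem _ fun I _ => ?_)
    by_cases hI : z (fun k => e (I k)) = 0
    · rw [hI, zero_smul]
      exact Submodule.zero_mem _
    · refine Submodule.smul_mem _ _ (Submodule.subset_span ⟨?_, fun J => detI_rat e I J⟩)
      have h4 : ∏ k, (jO ((I k).2 (Y.π (I k).1))) ^ s = ((p : Ω) ^ Y.a) ^ (n * s) := by
        have h5 := hz (fun k => e (I k))
        simp only [hFe] at h5
        rw [AlternatingMap.map_smul_univ, smul_eq_mul] at h5
        exact mul_right_cancel₀ hI h5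
      intro v
      rw [detI_eig e (F Ω Y ^ s) (fun w => (jO (w.2 (Y.π w.1))) ^ s) hFe, h4]
  · have hcard : Fintype.card (Wt Y.X L) = Fintype.card (Fin (finrank Ω (TM Ω Y))) := by
      rw [Fintype.card_fin, Module.finrank_eq_card_basis e]
    let e' : Basis (Fin (finrank Ω (TM Ω Y))) Ω (TM Ω Y) :=
      e.reindex (Fintype.equivOfCardEq hcard)
    have he' : ∀ k, ∃ w, e' k = e w := fun k => ⟨_, Basis.reindex_apply _ _ _⟩
    choose W hW using he'
    refine ⟨e'.det, ?_⟩
    intro n m E z hz w hw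
    have h4 : ∃ a : ℚ, altSum (times (fun u => z u) (fun u => w u)) (fun k => e' (E k)) =
        (a : Ω) := by
      have h5 : ∀ σ : Perm (Fin (2 * n) ⊕ Fin (2 * m)), ∃ a : ℚ,
          ((Perm.sign σ : ℤ) : Ω) * (z (fun k => e' (E (σ (Sum.inl k)))) *
            w (fun k => e' (E (σ (Sum.inr k))))) = (a : Ω) := by
        intro σ
        obtain ⟨a, ha⟩ := hz.2 (fun k => W (E (σ (Sum.inl k))))
        obtain ⟨b, hb⟩ := hw.2 (fun k => W (E (σ (Sum.inr k))))
        refine ⟨(Perm.sign σ : ℤ) * (a * b), ?_⟩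
        simp only [hW]
        rw [ha, hb]
        push_cast
        rfl
      choose a ha using h5
      refine ⟨∑ σ, a σ, ?_⟩
      rw [Rat.cast_sum]
      exact Finset.sum_congr rfl fun σ _ => ha σ
    obtain ⟨a, ha⟩ := h4
    refine ⟨a, fun v => ?_⟩
    rw [top_det e' E z w v, ha]

end

end Pool.Agent.W547.DR
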