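import Pool.Agent.W547.DR.Exist

/-!
# The main results: standard conjecture D and the pole formula
-/

set_option autoImplicit false
set_option linter.unusedSectionVars false
set_option linter.unusedVariables false

namespace Pool.Agent.W547.DR

open NumberField Pool.Agent.H204R3.CM Pool.Agent.W547.KB Pool.Agent.W547.LD Pool.Agent.W547.HR
open Pool.Agent.W495.TA Module Equiv

noncomputable section

variable {p : ℕ} [Fact p.Prime] {ν : PadicAlgCl p ≃+* ℂ}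

theorem exists_field (Y : RedAV p ν) (A : CMPair) :
    ∃ (L : Type) (_ : Field L) (_ : NumberField L) (j : L →+* ℂ), Big Y.X j := by
  have hne : Nonempty (Y.X.prod (single A)).I := ⟨Sum.inr ()⟩
  obtain ⟨L, h1, h2, _, _, j, hj⟩ := exists_cm (Y.X.prod (single A))
  exact ⟨L, h1, h2, j, fun i ψ => hj (Sum.inl i) ψ⟩

/-- Standard conjecture D. -/
theorem conjectureD (A : CMPair) (hA : finrank ℚ A.E ≤ 10) (b : ℕ) (hb : 0 < b) (ϖ : A.E)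
    (hϖ : IsFrobenius p ν A b ϖ) (Ω : Type) [Field Ω] [IsAlgClosed Ω] [CharZero Ω]
    (Y : RedAV p ν) (hY : IsPowerTimesSupersingular A b ϖ Y) (s n : ℕ) (hs : 0 < s)
    (z : (TM Ω Y) [⋀^Fin (2 * n)]→ₗ[Ω] Ω) (hz : IsTateClass Ω Y s n z)
    (ho : IsOrthogonal Ω Y z) : z = 0 := by
  obtain ⟨L, _, _, j, hj⟩ := exists_field Y A
  let jO : L →+* Ω := ((IsAlgClosed.lift : L →ₐ[ℚ] Ω) : L →+* Ω)
  exact zero_of_orthogonal jO hj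
    (fun m f hf => Pool.Agent.W495.TA.main p ν A hA b hb ϖ hϖ Ω Y hY s m hs f hf) z hz ho

theorem formEig_eq (Y : RedAV p ν) (s n : ℕ) :
    DP.FormEig (F ℂ Y ^ s) ((((p ^ Y.a) ^ s : ℕ) : ℂ) ^ n) (Fin (2 * n)) = Tate ℂ Y s n := by
  ext z
  have h : (((p ^ Y.a) ^ s : ℕ) : ℂ) ^ n = ((p : ℂ) ^ Y.a) ^ (n * s) := by
    push_cast
    rw [← pow_mul, mul_comm s n]
  rw [h]
  exact Iff.rfl

/-- The order of the pole is the dimension of the space of Tate classes. -/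
theorem zeta_order {L : Type} [Field L] [NumberField L] {j : L →+* ℂ} {Y : RedAV p ν}
    (hY : Big Y.X j) (s : ℕ) (hs : 0 < s) (n : ℕ) :
    meromorphicOrderAt (Pool.Agent.H868R3.TwoOdd.zeta (((p ^ Y.a) ^ s : ℕ) : ℝ) (F ℂ Y ^ s))
      (n : ℂ) = ((-(finrank ℂ (Tate ℂ Y s n) : ℤ) : ℤ) : WithTop ℤ) := by
  classical
  have hp : p.Prime := Fact.out
  have := finite_wt hY
  let _ : Fintype (Wt Y.X L) := Fintype.ofFinite _
  obtain ⟨e, h1, h2⟩ := Pool.Agent.W67.TA.basis p ν ℂ L j j Y hY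
  have hQ : 1 < (p ^ Y.a) ^ s := Nat.one_lt_pow hs.ne' (Nat.one_lt_pow Y.pos.ne' hp.one_lt)
  have hspan : Submodule.span ℂ {v : TM ℂ Y | ∃ μ : ℂ, μ ∈ {μ : ℂ | ‖μ‖ ^ 2 =
      (((p ^ Y.a) ^ s : ℕ) : ℝ)} ∧ (F ℂ Y ^ s) v = μ • v} = ⊤ := by
    rw [eq_top_iff, ← e.span_eq, Submodule.span_le]
    rintro _ ⟨w, rfl⟩
    refine Submodule.subset_span ⟨(j (w.2 (Y.π w.1))) ^ s, ?_, F_pow_e j e h1 h2 w s⟩
    have h3 := (Y.frob w.1).weil (j.comp w.2)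
    change ‖(j (w.2 (Y.π w.1))) ^ s‖ ^ 2 = _
    rw [norm_pow, ← pow_mul, mul_comm, pow_mul]
    change (‖(j.comp w.2) (Y.π w.1)‖ ^ 2) ^ s = _
    rw [h3]
    push_cast
    rfl
  rw [DP.zeta_order_eig ((((p ^ Y.a) ^ s : ℕ) : ℝ)) (by exact_mod_cast hQ) (F ℂ Y ^ s)
    {μ : ℂ | ‖μ‖ ^ 2 = (((p ^ Y.a) ^ s : ℕ) : ℝ)} (fun μ hμ => hμ) hspan n]
  have h4 : (((((p ^ Y.a) ^ s : ℕ) : ℝ)) : ℂ) = (((p ^ Y.a) ^ s : ℕ) : ℂ) := by
    exact Complex.ofReal_natCast _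
  rw [h4, ← DP.finrank_formEig, formEig_eq]

/-- Ranks for all `Ω`. -/
theorem rank (A : CMPair) (hA : finrank ℚ A.E ≤ 10) (b : ℕ) (hb : 0 < b) (ϖ : A.E)
    (hϖ : IsFrobenius p ν A b ϖ) (Ω : Type) [Field Ω] [IsAlgClosed Ω] [CharZero Ω]
    (Y : RedAV p ν) (hY : IsPowerTimesSupersingular A b ϖ Y) (s : ℕ) (hs : 0 < s) :
    (∃ S, IsCycleSystem Ω Y s S) ∧ RankEqual Ω Y s := by
  obtain ⟨L, _, _, j, hj⟩ := exists_field Y A
  let jO : L →+* Ω := ((IsAlgClosed.lift : L →ₐ[ℚ] Ω) : L →+* Ω)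
  have hgen : ∀ (m : ℕ) (f : (TM Ω Y) [⋀^Fin (2 * m)]→ₗ[Ω] Ω), IsTateClass Ω Y s m f →
      Alg Ω Y (Fin (2 * m)) f := fun m f hf =>
    Pool.Agent.W495.TA.main p ν A hA b hb ϖ hϖ Ω Y hY s m hs f hf
  refine ⟨exists_system jO hj s, fun S hS n => ⟨fun z hz hn => zero_of_trivial jO hj hgen hS hz hn,
    fun z => span_iff hgen hS z, finrank_span jO hj hgen hS n⟩⟩

/-- The pole formula. -/
theorem pole (A : CMPair) (hA : finrank ℚ A.E ≤ 10) (b : ℕ) (hb : 0 < b) (ϖ : A.E)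
    (hϖ : IsFrobenius p ν A b ϖ) (Y : RedAV p ν) (hY : IsPowerTimesSupersingular A b ϖ Y) (s : ℕ)
    (hs : 0 < s) :
    (∃ S, IsCycleSystem ℂ Y s S) ∧
    ∀ S : ∀ n : ℕ, Submodule ℚ ((TM ℂ Y) [⋀^Fin (2 * n)]→ₗ[ℂ] ℂ), IsCycleSystem ℂ Y s S →
      ∀ n : ℕ, (∀ z ∈ S n, IsNumericallyTrivial S z → z = 0) ∧
        meromorphicOrderAt
          (Pool.Agent.H868R3.TwoOdd.zeta (((p ^ Y.a) ^ s : ℕ) : ℝ) (F ℂ Y ^ s)) (n : ℂ) =
          ((-(finrank ℚ (S n) : ℤ) : ℤ) : WithTop ℤ) := by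
  obtain ⟨L, _, _, j, hj⟩ := exists_field Y A
  have hgen : ∀ (m : ℕ) (f : (TM ℂ Y) [⋀^Fin (2 * m)]→ₗ[ℂ] ℂ), IsTateClass ℂ Y s m f →
      Alg ℂ Y (Fin (2 * m)) f := fun m f hf =>
    Pool.Agent.W495.TA.main p ν A hA b hb ϖ hϖ ℂ Y hY s m hs f hf
  refine ⟨exists_system j hj s, fun S hS n =>
    ⟨fun z hz hn => zero_of_trivial j hj hgen hS hz hn, ?_⟩⟩
  have h1 : Submodule.span ℂ (S n : Set ((TM ℂ Y) [⋀^Fin (2 * n)]→ₗ[ℂ] ℂ)) = Tate ℂ Y s n := by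
    ext z
    exact span_iff hgen hS z
  rw [zeta_order hj s hs n, finrank_span j hj hgen hS n, h1]

end

end Pool.Agent.W547.DR
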