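import Pool.Agent.W547.DR.Pole
import Pool.Agent.W547.DP.PLim

/-!
# The pole of the L-function of the cohomology in even degree
-/

set_option autoImplicit false
set_option linter.unusedSectionVars false
set_option linter.unusedVariables false

namespace Pool.Agent.W547.DR

open NumberField Pool.Agent.H204R3.CM Pool.Agent.W547.KB Pool.Agent.W547.LD Pool.Agent.W547.HR
open Pool.Agent.W495.TA Module Equiv Filter Topology

noncomputable section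

variable {p : ℕ} [Fact p.Prime] {ν : PadicAlgCl p ≃+* ℂ}

/-- The L-function of the cohomology of degree `2 n` of `Y` over the extension of degree `s` has at
`n` a pole of order `dim (S n)`, and numerically trivial classes in `S n` are zero. -/
def AnalyticFormula {Y : RedAV p ν} (s : ℕ) (S : Sys ℂ Y) (n : ℕ) : Prop :=
  (∀ z ∈ S n, NumTrivial S z → z = 0) ∧
    ∃ c : ℂ, c ≠ 0 ∧ Tendsto (fun t : ℝ => (t : ℂ) ^ (finrank ℚ (S n)) *
      DP.Phi ((p ^ Y.a) ^ s) (F ℂ Y ^ s) n (t + n)) (𝓝[>] 0) (𝓝 c)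

open Pool.Agent.H868R3.TwoOdd in
theorem phi_limit {L : Type} [Field L] [NumberField L] {j : L →+* ℂ} {Y : RedAV p ν}
    (hY : Big Y.X j) (s : ℕ) (hs : 0 < s) (n : ℕ) :
    ∃ c : ℂ, c ≠ 0 ∧ Tendsto (fun t : ℝ => (t : ℂ) ^ (finrank ℂ (Tate ℂ Y s n)) *
      DP.Phi ((p ^ Y.a) ^ s) (F ℂ Y ^ s) n (t + n)) (𝓝[>] 0) (𝓝 c) := by
  classical
  have hp : p.Prime := Fact.out
  have := finite_wt hY
  let _ : Fintype (Wt Y.X L) := Fintype.ofFinite _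
  obtain ⟨e, h1, h2⟩ := Pool.Agent.W67.TA.basis p ν ℂ L j j Y hY
  have hQ : 1 < (p ^ Y.a) ^ s := Nat.one_lt_pow hs.ne' (Nat.one_lt_pow Y.pos.ne' hp.one_lt)
  have hspan : Submodule.span ℂ {v : TM ℂ Y | ∃ μ : ℂ, μ ∈ (Set.univ : Set ℂ) ∧
      (F ℂ Y ^ s) v = μ • v} = ⊤ := by
    rw [eq_top_iff, ← e.span_eq, Submodule.span_le]
    rintro _ ⟨w, rfl⟩
    exact Submodule.subset_span ⟨(j (w.2 (Y.π w.1))) ^ s, Set.mem_univ _,
      F_pow_e j e h1 h2 w s⟩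
  obtain ⟨ι, _, B, α, hB, hα⟩ := exists_extBasis (F ℂ Y ^ s) Set.univ hspan (2 * n)
  obtain ⟨h3, h4⟩ := order_det ((((p ^ Y.a) ^ s : ℕ) : ℝ)) (by exact_mod_cast hQ) n B _ α hB
  have h5 : finrank ℂ (Module.End.eigenspace (exteriorPower.map (2 * n) (F ℂ Y ^ s))
      ((((((p ^ Y.a) ^ s : ℕ) : ℝ)) : ℂ) ^ n)) = finrank ℂ (Tate ℂ Y s n) := by
    rw [Complex.ofReal_natCast, ← DP.finrank_formEig, formEig_eq]
  rw [h5] at h4
  obtain ⟨c, hc0, hc⟩ := DP.tendsto_of_order _ (n : ℂ) _ h3 h4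
  refine ⟨c, hc0, ?_⟩
  refine hc.congr fun t => ?_
  unfold DP.Phi
  simp only [Complex.ofReal_natCast]

/-- The analytic form of the Tate conjecture. -/
theorem analytic (A : CMPair) (hA : finrank ℚ A.E ≤ 10) (b : ℕ) (hb : 0 < b) (ϖ : A.E)
    (hϖ : IsFrobenius p ν A b ϖ) (Y : RedAV p ν) (hY : IsPowerTimesSupersingular A b ϖ Y) (s : ℕ)
    (hs : 0 < s) :
    (∃ S : Sys ℂ Y, CycleSystem s S) ∧
      ∀ S : Sys ℂ Y, CycleSystem s S → ∀ n : ℕ, AnalyticFormula s S n := by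
  obtain ⟨h1, h2⟩ := rank_formula A hA b hb ϖ hϖ ℂ Y hY s hs
  refine ⟨h1, fun S hS n => ⟨(h2 S hS n).1, ?_⟩⟩
  obtain ⟨L, _, _, j, hj⟩ := exists_field Y A
  have h3 := phi_limit hj s hs n
  have h4 : Submodule.span ℂ (S n : Set (Coh ℂ Y n)) = Tate ℂ Y s n := by
    ext z
    exact (h2 S hS n).2.1 z
  rw [(h2 S hS n).2.2]
  have h5 : finrank ℂ (Submodule.span ℂ (S n : Set (Coh ℂ Y n))) = finrank ℂ (Tate ℂ Y s n) := by
    exact congrArg (fun T : Submodule ℂ ((TM ℂ Y) [⋀^Fin (2 * n)]→ₗ[ℂ] ℂ) => finrank ℂ T) h4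
  rw [h5]
  exact h3

end

end Pool.Agent.W547.DR
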