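import Pool.Agent.W495.TA.Main
import Pool.Agent.W547.DP.Zeta
import Pool.Agent.W547.DR.Defs
import Pool.Agent.W547.DR.Dual

/-!
# Numerically trivial classes and ranks
-/

set_option autoImplicit false
set_option linter.unusedSectionVars false
set_option linter.unusedVariables false

namespace Pool.Agent.W547.DR

open NumberField Pool.Agent.H204R3.CM Pool.Agent.W547.KB Pool.Agent.W547.LD Pool.Agent.W547.HR
open Pool.Agent.W495.TA Module Equiv

noncomputable section

variable {p : ℕ} [Fact p.Prime] {ν : PadicAlgCl p ≃+* ℂ}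

section weights

variable {L : Type} [Field L] [NumberField L] {j : L →+* ℂ}

theorem finite_hom {A : CMPair} (hA : BigA A j) : Finite (A.E →+* L) := by
  refine Finite.of_injective (fun φ : A.E →+* L => j.comp φ) ?_
  intro φ φ' h
  ext a
  exact j.injective (RingHom.congr_fun h a)

open Classical in
theorem prod_hom {A : CMPair} (hA : BigA A j) [Fintype (A.E →+* L)] (x : A.E) (Q : ℚ)
    (hx : ∀ φ : A.E →+* ℂ, ‖φ x‖ ^ 2 = (Q : ℝ)) :
    ∏ φ : A.E →+* L, φ x = (Q : L) ^ (Fintype.card {φ : A.E →+* ℂ // φ ∈ A.Φ}) := by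
  apply j.injective
  rw [map_prod, map_pow, map_ratCast]
  have h1 := Algebra.norm_eq_prod_embeddings ℚ (L := A.E) ℂ x
  have h2 : ∏ φ : A.E →ₐ[ℚ] ℂ, φ x = ∏ φ : A.E →+* ℂ, φ x :=
    (Fintype.prod_equiv (RingHom.equivRatAlgHom A.E ℂ) _ _ (fun φ => rfl)).symm
  rw [h2, eq_ratCast, DP.norm_weil A x Q hx] at h1
  have h3 : ∏ φ : A.E →+* L, j (φ x) = ∏ φ : A.E →+* ℂ, φ x := by
    refine Fintype.prod_bijective (fun φ : A.E →+* L => j.comp φ) ⟨?_, ?_⟩ _ _ fun φ => rfl
    · intro φ φ' h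
      ext a
      exact j.injective (RingHom.congr_fun h a)
    · intro ψ
      exact hA ψ
  rw [h3, ← h1]
  push_cast
  rfl

theorem finite_wt {X : CMAV} (hX : Big X j) : Finite (Wt X L) := by
  have : ∀ i, Finite ((X.factor i).E →+* L) := fun i => finite_hom (hX i)
  infer_instance

/-- The product of all eigenvalues of the Frobenius endomorphism. -/
theorem prod_weights {Y : RedAV p ν} (hY : Big Y.X j) [Fintype (Wt Y.X L)] {d : ℕ}
    (hd : 2 * d = finrank ℚ Y.X.H1) :
    ∏ w : Wt Y.X L, w.2 (Y.π w.1) = ((p : L) ^ Y.a) ^ d := by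
  classical
  have : ∀ i, Finite ((Y.X.factor i).E →+* L) := fun i => finite_hom (hY i)
  let _ : ∀ i, Fintype ((Y.X.factor i).E →+* L) := fun i => Fintype.ofFinite _
  have h1 : ∏ w : Wt Y.X L, w.2 (Y.π w.1) =
      ∏ i, ∏ φ : (Y.X.factor i).E →+* L, φ (Y.π i) := by
    rw [← Fintype.prod_sigma' (fun (i : Y.X.I) (φ : (Y.X.factor i).E →+* L) => φ (Y.π i))]
    refine Finset.prod_congr ?_ fun _ _ => rfl
    ext w
    simp
  have h2 : ∀ i, ∏ φ : (Y.X.factor i).E →+* L, φ (Y.π i) = ((p : L) ^ Y.a) ^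
      (Fintype.card {φ : (Y.X.factor i).E →+* ℂ // φ ∈ (Y.X.factor i).Φ}) := by
    intro i
    rw [prod_hom (hY i) (Y.π i) ((p : ℚ) ^ Y.a) fun φ => ?_]
    · push_cast
      rfl
    · rw [(Y.frob i).weil φ]
      push_cast
      rfl
  rw [h1, Finset.prod_congr rfl (fun i _ => h2 i), Finset.prod_pow_eq_pow_sum]
  congr 1
  have h3 : finrank ℚ Y.X.H1 = ∑ i, finrank ℚ (Y.X.factor i).E := Module.finrank_pi_fintype ℚ
  have h4 : ∀ i, finrank ℚ (Y.X.factor i).E =
      2 * Fintype.card {φ : (Y.X.factor i).E →+* ℂ // φ ∈ (Y.X.factor i).Φ} := by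
    intro i
    rw [card_type, Nat.card_eq_fintype_card]
  rw [Finset.sum_congr rfl (fun i _ => h4 i), ← Finset.mul_sum] at h3
  omega

end weights

section tate

variable {Ω : Type} [Field Ω] [CharZero Ω]

theorem finrank_TM (Y : RedAV p ν) : finrank Ω (TM Ω Y) = finrank ℚ Y.X.H1 :=
  Module.finrank_baseChange

theorem finite_TM (Y : RedAV p ν) : FiniteDimensional Ω (TM Ω Y) := inferInstance

/-- The space of Tate classes. -/
def Tate (Ω : Type) [Field Ω] [CharZero Ω] (Y : RedAV p ν) (s n : ℕ) :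
    Submodule Ω ((TM Ω Y) [⋀^Fin (2 * n)]→ₗ[Ω] Ω) where
  carrier := {z | IsTateClass Ω Y s n z}
  zero_mem' := fun v => by simp
  add_mem' := fun {f g} hf hg v => by
    rw [AlternatingMap.add_apply, AlternatingMap.add_apply, hf v, hg v, mul_add]
  smul_mem' := fun c f hf v => by
    rw [AlternatingMap.smul_apply, AlternatingMap.smul_apply, hf v, smul_eq_mul, smul_eq_mul]
    ring

theorem form_zero {κ : Type} [Fintype κ] {V : Type} [AddCommGroup V] [Module Ω V]
    [FiniteDimensional Ω V] (h : finrank Ω V < Fintype.card κ) (z : V [⋀^κ]→ₗ[Ω] Ω) : z = 0 := by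
  ext v
  refine z.map_linearDependent v fun hli => ?_
  have := hli.fintype_card_le_finrank
  omega

variable {L : Type} [Field L] [NumberField L] {j : L →+* ℂ}

/-- For each nonzero Tate class there is a Tate class of complementary degree with nonzero
product. -/
theorem exists_dual_tate (jO : L →+* Ω) {Y : RedAV p ν} (hY : Big Y.X j) (s : ℕ) {n m : ℕ}
    (hnm : 2 * (n + m) = finrank Ω (TM Ω Y)) (z : (TM Ω Y) [⋀^Fin (2 * n)]→ₗ[Ω] Ω)
    (hz : IsTateClass Ω Y s n z) (hne : z ≠ 0) :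
    ∃ w : (TM Ω Y) [⋀^Fin (2 * m)]→ₗ[Ω] Ω, IsTateClass Ω Y s m w ∧
      ∃ v : Fin (2 * n) ⊕ Fin (2 * m) → TM Ω Y,
        altSum (times (fun u => z u) (fun u => w u)) v ≠ 0 := by
  classical
  have := finite_wt hY
  let _ : Fintype (Wt Y.X L) := Fintype.ofFinite _
  obtain ⟨e, h1, h2⟩ := Pool.Agent.W67.TA.basis p ν Ω L j jO Y hY
  have hp : (p : Ω) ≠ 0 := Nat.cast_ne_zero.2 (Fact.out : p.Prime).ne_zero
  have hprod : ∏ w : Wt Y.X L, (jO (w.2 (Y.π w.1))) ^ s =
      ((p : Ω) ^ Y.a) ^ (n * s) * ((p : Ω) ^ Y.a) ^ (m * s) := by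
    rw [Finset.prod_pow, ← map_prod, prod_weights hY (d := n + m) (hnm.trans (finrank_TM Y)),
      map_pow, map_pow, map_natCast, ← pow_mul, ← pow_add, add_mul]
  obtain ⟨g, hg1, hg2⟩ := exists_dual (κ := Fin (2 * n)) (κ' := Fin (2 * m)) e (F Ω Y ^ s)
    (fun w => (jO (w.2 (Y.π w.1))) ^ s) (fun w => F_pow_e jO e h1 h2 w s)
    (((p : Ω) ^ Y.a) ^ (n * s)) (((p : Ω) ^ Y.a) ^ (m * s))
    (pow_ne_zero _ (pow_ne_zero _ hp)) hprod (by
      rw [Fintype.card_fin, Fintype.card_fin, ← Module.finrank_eq_card_basis e]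
      omega) z hz hne
  exact ⟨g, hg1, hg2⟩

end tate

section alt

variable {R V : Type} [CommRing R] [AddCommGroup V] [Module R V] {κ κ' : Type} [Fintype κ]
  [DecidableEq κ] [Fintype κ'] [DecidableEq κ']

theorem altSum_add_right (z : V [⋀^κ]→ₗ[R] R) (w w' : V [⋀^κ']→ₗ[R] R) (v : κ ⊕ κ' → V) :
    altSum (times (fun u => z u) (fun u => (w + w') u)) v =
      altSum (times (fun u => z u) (fun u => w u)) v +
        altSum (times (fun u => z u) (fun u => w' u)) v := by
  unfold altSum times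
  rw [← Finset.sum_add_distrib]
  refine Finset.sum_congr rfl fun σ _ => ?_
  beta_reduce
  rw [AlternatingMap.add_apply]
  ring

theorem altSum_smul_right (c : R) (z : V [⋀^κ]→ₗ[R] R) (w : V [⋀^κ']→ₗ[R] R) (v : κ ⊕ κ' → V) :
    altSum (times (fun u => z u) (fun u => (c • w) u)) v =
      c * altSum (times (fun u => z u) (fun u => w u)) v := by
  unfold altSum times
  rw [Finset.mul_sum]
  refine Finset.sum_congr rfl fun σ _ => ?_
  beta_reduce
  rw [AlternatingMap.smul_apply, smul_eq_mul]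
  ring

theorem altSum_zero_right (z : V [⋀^κ]→ₗ[R] R) (v : κ ⊕ κ' → V) :
    altSum (times (fun u => z u) (fun u => (0 : V [⋀^κ']→ₗ[R] R) u)) v = 0 := by
  unfold altSum times
  refine Finset.sum_eq_zero fun σ _ => ?_
  beta_reduce
  rw [AlternatingMap.zero_apply]
  ring

/-- Orthogonality to a span. -/
theorem altSum_span {z : V [⋀^κ]→ₗ[R] R} {S : Set (V [⋀^κ']→ₗ[R] R)}
    (h : ∀ w ∈ S, ∀ v, altSum (times (fun u => z u) (fun u => w u)) v = 0)
    {w : V [⋀^κ']→ₗ[R] R} (hw : w ∈ Submodule.span R S) (v : κ ⊕ κ' → V) :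
    altSum (times (fun u => z u) (fun u => w u)) v = 0 := by
  induction hw using Submodule.span_induction with
  | mem w hw => exact h w hw v
  | zero => exact altSum_zero_right z v
  | add w w' _ _ h1 h2 => rw [altSum_add_right, h1, h2, add_zero]
  | smul c w _ h1 => rw [altSum_smul_right, h1, mul_zero]

/-- The functions `altSum (times z w)`, linear in `z`. -/
theorem altSum_sum_left {ι : Type} (t : Finset ι) (c : ι → R) (z : ι → V [⋀^κ]→ₗ[R] R)
    (w : V [⋀^κ']→ₗ[R] R) (v : κ ⊕ κ' → V) :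
    altSum (times (fun u => (∑ i ∈ t, c i • z i) u) (fun u => w u)) v =
      ∑ i ∈ t, c i * altSum (times (fun u => z i u) (fun u => w u)) v := by
  classical
  induction t using Finset.induction_on with
  | empty =>
    rw [Finset.sum_empty, Finset.sum_empty]
    unfold altSum times
    refine Finset.sum_eq_zero fun σ _ => ?_
    beta_reduce
    rw [AlternatingMap.zero_apply]
    ring
  | insert a t ha ih =>
    rw [Finset.sum_insert ha, Finset.sum_insert ha, ← ih]
    unfold altSum times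
    rw [Finset.mul_sum, ← Finset.sum_add_distrib]
    refine Finset.sum_congr rfl fun σ _ => ?_
    beta_reduce
    rw [AlternatingMap.add_apply, AlternatingMap.smul_apply, smul_eq_mul]
    ring

end alt

end

end Pool.Agent.W547.DR
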