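import Pool.Agent.W547.DR.Defs
import Pool.Agent.H868R3.PoleExt

/-!
# Systems of classes with the properties of the classes of algebraic cycles, and the pole formula
-/

set_option autoImplicit false

namespace Pool.Agent.W547.DR

open Module Pool.Agent.W547.KB Pool.Agent.W547.HR Pool.Agent.W495.TA

noncomputable section

variable {p : ℕ} [Fact p.Prime] {ν : PadicAlgCl p ≃+* ℂ}

/-- The cohomology of degree `2 n` of the abelian variety `Y` with coefficients in `Ω`: alternating
forms on the Tate module. -/
def Coh (Ω : Type) [Field Ω] [CharZero Ω] (Y : RedAV p ν) (n : ℕ) : Type :=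
  (TM Ω Y) [⋀^Fin (2 * n)]→ₗ[Ω] Ω

variable (Ω : Type) [Field Ω] [CharZero Ω] (Y : RedAV p ν)

instance instCoh (n : ℕ) : AddCommGroup (Coh Ω Y n) :=
  (inferInstance : AddCommGroup ((TM Ω Y) [⋀^Fin (2 * n)]→ₗ[Ω] Ω))

instance instModCoh (n : ℕ) : Module Ω (Coh Ω Y n) :=
  (inferInstance : Module Ω ((TM Ω Y) [⋀^Fin (2 * n)]→ₗ[Ω] Ω))

instance instRatCoh (n : ℕ) : Module ℚ (Coh Ω Y n) :=
  (inferInstance : Module ℚ ((TM Ω Y) [⋀^Fin (2 * n)]→ₗ[Ω] Ω))

/-- A rational subspace of the cohomology, for each even degree. -/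
def Sys : Type := ∀ n : ℕ, Submodule ℚ (Coh Ω Y n)

variable {Ω Y}

/-- The form `z` is a Tate class over the extension of degree `s`. -/
def IsTate (s : ℕ) {n : ℕ} (z : Coh Ω Y n) : Prop := IsTateClass Ω Y s n z

/-- The form `z` belongs to the system generated by Tate classes of degree two and split Weil
classes. -/
def IsAlg {n : ℕ} (z : Coh Ω Y n) : Prop := Alg Ω Y (Fin (2 * n)) z

/-- The cup product of `z` and `w` (up to a positive factor), evaluated at the vectors `v`. -/
def cup {n m : ℕ} (z : Coh Ω Y n) (w : Coh Ω Y m) (v : Fin (2 * n) ⊕ Fin (2 * m) → TM Ω Y) : Ω :=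
  altSum (times (fun u => AlternatingMap.toMultilinearMap z u)
    (fun u => AlternatingMap.toMultilinearMap w u)) v

/-- The intersection numbers of the elements of the spaces `S n` and `S m`, `n + m = dim Y`, are
rational (with respect to the orientation `o`). -/
def RationalNumbers (S : Sys Ω Y) : Prop :=
  ∃ o : (TM Ω Y) [⋀^Fin (finrank Ω (TM Ω Y))]→ₗ[Ω] Ω,
    ∀ (n m : ℕ) (e : Fin (2 * n) ⊕ Fin (2 * m) ≃ Fin (finrank Ω (TM Ω Y))), ∀ z ∈ S n, ∀ w ∈ S m,
      ∃ a : ℚ, ∀ v, cup z w (fun k => v (e k)) = (a : Ω) * o v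

/-- The rational subspaces `S n` have the following properties of the spaces of the rational linear
combinations of the classes of algebraic cycles of codimension `n` on `Y` over the extension of
degree `s` of the ground field: they consist of Tate classes; the Tate classes in the system `Alg`,
generated by Tate classes of degree two and split Weil classes, are combinations of elements of
`S n` with coefficients in `Ω` (theorems of Tate and Markman); intersection numbers are rational. -/
structure CycleSystem (s : ℕ) (S : Sys Ω Y) : Prop where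
  tate : ∀ n, ∀ z ∈ S n, IsTate s z
  alg : ∀ n (z : Coh Ω Y n), IsAlg z → IsTate s z →
    z ∈ Submodule.span Ω (S n : Set (Coh Ω Y n))
  rational : RationalNumbers S

/-- The class `z ∈ S n` is numerically trivial: its intersection number with every class in `S m`,
`n + m = dim Y`, is zero. -/
def NumTrivial (S : Sys Ω Y) {n : ℕ} (z : Coh Ω Y n) : Prop :=
  ∀ m, 2 * (n + m) = finrank Ω (TM Ω Y) → ∀ w ∈ S m, ∀ v, cup z w v = 0

/-- The order of the zeta function of `Y` over the extension of degree `s` at `n` is the negative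
of the dimension of `S n`, and numerically trivial classes in `S n` are zero. -/
def PoleFormula {Y : RedAV p ν} (s : ℕ) (S : Sys ℂ Y) (n : ℕ) : Prop :=
  (∀ z ∈ S n, NumTrivial S z → z = 0) ∧
    meromorphicOrderAt (Pool.Agent.H868R3.TwoOdd.zeta (((p ^ Y.a) ^ s : ℕ) : ℝ) (F ℂ Y ^ s)) n =
      ((-(finrank ℚ (S n) : ℤ) : ℤ) : WithTop ℤ)

/-- The dimension of `S n` is the dimension of the space of Tate classes, which is spanned by `S n`,
and numerically trivial classes in `S n` are zero. -/
def RankFormula (s : ℕ) (S : Sys Ω Y) (n : ℕ) : Prop :=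
  (∀ z ∈ S n, NumTrivial S z → z = 0) ∧
    (∀ z : Coh Ω Y n, z ∈ Submodule.span Ω (S n : Set (Coh Ω Y n)) ↔ IsTate s z) ∧
    finrank ℚ (S n) = finrank Ω (Submodule.span Ω (S n : Set (Coh Ω Y n)))

end

end Pool.Agent.W547.DR
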