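import Pool.Agent.W547.DR.Final
import Pool.Agent.W547.DR.PoleDefs

/-!
# The pole formula and the rank formula
-/

set_option autoImplicit false

namespace Pool.Agent.W547.DR

open Module Pool.Agent.W547.KB Pool.Agent.W547.HR Pool.Agent.W495.TA

noncomputable section

variable {p : ℕ} [Fact p.Prime] {ν : PadicAlgCl p ≃+* ℂ} {Ω : Type} [Field Ω] [CharZero Ω]
  {Y : RedAV p ν}

theorem system_iff (s : ℕ) (S : Sys Ω Y) : CycleSystem s S ↔ IsCycleSystem Ω Y s S :=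
  ⟨fun h => ⟨h.tate, h.alg, h.rational⟩, fun h => ⟨h.tate, h.alg, h.rational⟩⟩

theorem exists_sys {s : ℕ} (h : ∃ S, IsCycleSystem Ω Y s S) : ∃ S : Sys Ω Y, CycleSystem s S := by
  obtain ⟨S, hS⟩ := h
  exact ⟨S, (system_iff s S).2 hS⟩

/-- The pole formula. -/
theorem pole_formula (A : CMPair) (hA : finrank ℚ A.E ≤ 10) (b : ℕ) (hb : 0 < b) (ϖ : A.E)
    (hϖ : IsFrobenius p ν A b ϖ) (Y : RedAV p ν) (hY : IsPowerTimesSupersingular A b ϖ Y) (s : ℕ)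
    (hs : 0 < s) :
    (∃ S : Sys ℂ Y, CycleSystem s S) ∧
      ∀ S : Sys ℂ Y, CycleSystem s S → ∀ n : ℕ, PoleFormula s S n := by
  obtain ⟨h1, h2⟩ := pole A hA b hb ϖ hϖ Y hY s hs
  exact ⟨exists_sys h1, fun S hS n => h2 S ((system_iff s S).1 hS) n⟩

/-- The rank formula. -/
theorem rank_formula (A : CMPair) (hA : finrank ℚ A.E ≤ 10) (b : ℕ) (hb : 0 < b) (ϖ : A.E)
    (hϖ : IsFrobenius p ν A b ϖ) (Ω : Type) [Field Ω] [IsAlgClosed Ω] [CharZero Ω]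
    (Y : RedAV p ν) (hY : IsPowerTimesSupersingular A b ϖ Y) (s : ℕ) (hs : 0 < s) :
    (∃ S : Sys Ω Y, CycleSystem s S) ∧
      ∀ S : Sys Ω Y, CycleSystem s S → ∀ n : ℕ, RankFormula s S n := by
  obtain ⟨h1, h2⟩ := rank A hA b hb ϖ hϖ Ω Y hY s hs
  exact ⟨exists_sys h1, fun S hS n => h2 S ((system_iff s S).1 hS) n⟩

end

end Pool.Agent.W547.DR
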