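import Pool.Agent.W547.DR.Main
import Pool.Agent.W547.DP.Count

/-!
# Standard conjecture D and the ranks of the groups of cycles
-/

set_option autoImplicit false
set_option linter.unusedSectionVars false
set_option linter.unusedVariables false

namespace Pool.Agent.W547.DR

open NumberField Pool.Agent.H204R3.CM Pool.Agent.W547.KB Pool.Agent.W547.LD Pool.Agent.W547.HR
open Pool.Agent.W495.TA Module Equiv

noncomputable section

variable {p : ℕ} [Fact p.Prime] {ν : PadicAlgCl p ≃+* ℂ} {Ω : Type} [Field Ω] [CharZero Ω]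
  {L : Type} [Field L] [NumberField L] {j : L →+* ℂ}

theorem even_finrank (X : CMAV) : ∃ d, 2 * d = finrank ℚ X.H1 := by
  have h2 : finrank ℚ X.H1 = ∑ i, finrank ℚ (X.factor i).E := Module.finrank_pi_fintype ℚ
  rw [Finset.sum_congr rfl (fun i _ => card_type (X.factor i)), ← Finset.mul_sum] at h2
  exact ⟨_, h2.symm⟩

theorem zero_of_orthogonal (jO : L →+* Ω) {Y : RedAV p ν} (hY : Big Y.X j) {s : ℕ}
    (hgen : ∀ (m : ℕ) (f : (TM Ω Y) [⋀^Fin (2 * m)]→ₗ[Ω] Ω), IsTateClass Ω Y s m f →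
      Alg Ω Y (Fin (2 * m)) f) {n : ℕ} (z : (TM Ω Y) [⋀^Fin (2 * n)]→ₗ[Ω] Ω)
    (hz : IsTateClass Ω Y s n z) (ho : IsOrthogonal Ω Y z) : z = 0 := by
  by_contra hne
  obtain ⟨d, hd⟩ := even_finrank Y.X
  rw [← finrank_TM (Ω := Ω)] at hd
  rcases Nat.lt_or_ge d n with hn | hn
  · exact hne (form_zero (by rw [Fintype.card_fin]; omega) z)
  · obtain ⟨m, rfl⟩ := Nat.exists_eq_add_of_le hn
    obtain ⟨w, hw, v, hv⟩ := exists_dual_tate jO hY s hd z hz hne
    exact hv (ho m w hd (hgen m w hw) v)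

variable {Y : RedAV p ν} {A : ∀ n : ℕ, Submodule ℚ ((TM Ω Y) [⋀^Fin (2 * n)]→ₗ[Ω] Ω)}

/-- Numerically trivial classes are zero. -/
theorem zero_of_trivial (jO : L →+* Ω) (hY : Big Y.X j) {s : ℕ}
    (hgen : ∀ (m : ℕ) (f : (TM Ω Y) [⋀^Fin (2 * m)]→ₗ[Ω] Ω), IsTateClass Ω Y s m f →
      Alg Ω Y (Fin (2 * m)) f) (hA : IsCycleSystem Ω Y s A) {n : ℕ}
    {z : (TM Ω Y) [⋀^Fin (2 * n)]→ₗ[Ω] Ω} (hz : z ∈ A n) (hnum : IsNumericallyTrivial A z) :
    z = 0 := by
  by_contra hne
  obtain ⟨d, hd⟩ := even_finrank Y.X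
  rw [← finrank_TM (Ω := Ω)] at hd
  rcases Nat.lt_or_ge d n with hn | hn
  · exact hne (form_zero (by rw [Fintype.card_fin]; omega) z)
  · obtain ⟨m, rfl⟩ := Nat.exists_eq_add_of_le hn
    obtain ⟨w, hw, v, hv⟩ := exists_dual_tate jO hY s hd z (hA.tate n z hz) hne
    exact hv (altSum_span (fun w hw v => hnum m hd w hw v) (hA.alg m w (hgen m w hw) hw) v)

/-- The span of the classes of cycles. -/
theorem span_iff {s : ℕ}
    (hgen : ∀ (m : ℕ) (f : (TM Ω Y) [⋀^Fin (2 * m)]→ₗ[Ω] Ω), IsTateClass Ω Y s m f →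
      Alg Ω Y (Fin (2 * m)) f) (hA : IsCycleSystem Ω Y s A) {n : ℕ}
    (z : (TM Ω Y) [⋀^Fin (2 * n)]→ₗ[Ω] Ω) :
    z ∈ Submodule.span Ω (A n : Set ((TM Ω Y) [⋀^Fin (2 * n)]→ₗ[Ω] Ω)) ↔
      IsTateClass Ω Y s n z := by
  constructor
  · intro hz
    have h : Submodule.span Ω (A n : Set ((TM Ω Y) [⋀^Fin (2 * n)]→ₗ[Ω] Ω)) ≤ Tate Ω Y s n :=
      Submodule.span_le.2 fun w hw => hA.tate n w hw
    exact h hz
  · intro hz
    exact hA.alg n z (hgen n z hz) hz

theorem rat_smul_form {κ V : Type} [AddCommGroup V] [Module Ω V] (c : ℚ) (z : V [⋀^κ]→ₗ[Ω] Ω) :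
    c • z = (c : Ω) • z := by
  ext v
  rw [AlternatingMap.smul_apply, AlternatingMap.smul_apply, Rat.smul_def, smul_eq_mul]

/-- Rational linear independence implies linear independence. -/
theorem indep (jO : L →+* Ω) (hY : Big Y.X j) {s : ℕ}
    (hgen : ∀ (m : ℕ) (f : (TM Ω Y) [⋀^Fin (2 * m)]→ₗ[Ω] Ω), IsTateClass Ω Y s m f →
      Alg Ω Y (Fin (2 * m)) f) (hA : IsCycleSystem Ω Y s A) (n : ℕ) {ι : Type}
    (b : ι → (TM Ω Y) [⋀^Fin (2 * n)]→ₗ[Ω] Ω) (hbA : ∀ i, b i ∈ A n)
    (hb : LinearIndependent ℚ b) : LinearIndependent Ω b := by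
  classical
  rw [linearIndependent_iff']
  intro t c hc i0 hi0
  by_contra hne
  obtain ⟨l, hl⟩ : ∃ l : Ω →+ ℚ, l (c i0) ≠ 0 := by
    have h1 : c i0 ∉ (⊥ : Submodule ℚ Ω) := fun h => hne ((Submodule.mem_bot ℚ).1 h)
    obtain ⟨l, hl, _⟩ := Submodule.exists_dual_map_eq_bot_of_notMem h1 inferInstance
    exact ⟨l.toAddMonoidHom, hl⟩
  have hz : ∑ i ∈ t, l (c i) • b i = 0 := by
    refine zero_of_trivial jO hY hgen hA (n := n)
      (Submodule.sum_mem _ fun i _ => Submodule.smul_mem _ _ (hbA i)) ?_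
    intro m hm w hw v
    obtain ⟨o, ho⟩ := hA.rational
    have hcard : Fintype.card (Fin (2 * n) ⊕ Fin (2 * m)) =
        Fintype.card (Fin (finrank Ω (TM Ω Y))) := by
      rw [Fintype.card_sum, Fintype.card_fin, Fintype.card_fin, Fintype.card_fin]
      omega
    let e : Fin (2 * n) ⊕ Fin (2 * m) ≃ Fin (finrank Ω (TM Ω Y)) := Fintype.equivOfCardEq hcard
    have ho2 : ∀ i, ∃ a : ℚ, ∀ v : Fin (finrank Ω (TM Ω Y)) → TM Ω Y,
        altSum (times (fun u => b i u) (fun u => w u)) (fun k => v (e k)) = (a : Ω) * o v :=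
      fun i => ho n m e (b i) (hbA i) w hw
    choose a ha using ho2
    let v' : Fin (finrank Ω (TM Ω Y)) → TM Ω Y := fun k => v (e.symm k)
    have hv' : v = fun k => v' (e k) := by
      funext k
      change v k = v (e.symm (e k))
      rw [e.symm_apply_apply]
    have h1 : (fun u => (∑ i ∈ t, l (c i) • b i) u) =
        fun u => (∑ i ∈ t, ((l (c i) : ℚ) : Ω) • b i) u := by
      funext u
      rw [Finset.sum_congr rfl fun i _ => rat_smul_form (l (c i)) (b i)]
    rw [h1, altSum_sum_left, hv', Finset.sum_congr rfl fun i _ => by rw [ha i v']]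
    have h2 := congrArg (fun z : (TM Ω Y) [⋀^Fin (2 * n)]→ₗ[Ω] Ω =>
      altSum (times (fun u => z u) (fun u => w u)) (fun k => v' (e k))) hc
    beta_reduce at h2
    rw [altSum_sum_left, Finset.sum_congr rfl fun i _ => by rw [ha i v']] at h2
    have h3 : altSum (times (fun u => (0 : (TM Ω Y) [⋀^Fin (2 * n)]→ₗ[Ω] Ω) u) (fun u => w u))
        (fun k => v' (e k)) = 0 := by
      unfold altSum times
      refine Finset.sum_eq_zero fun σ _ => ?_
      beta_reduce
      rw [AlternatingMap.zero_apply]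
      ring
    rw [h3] at h2
    by_cases ho0 : o v' = 0
    · rw [ho0]
      refine Finset.sum_eq_zero fun i _ => ?_
      ring
    · have h4 : ∑ i ∈ t, c i * (a i : Ω) = 0 := by
        have h5 : (∑ i ∈ t, c i * (a i : Ω)) * o v' = 0 := by
          rw [Finset.sum_mul, ← h2]
          refine Finset.sum_congr rfl fun i _ => ?_
          ring
        exact (mul_eq_zero.1 h5).resolve_right ho0
      have h5 := congrArg l h4
      rw [map_sum, map_zero] at h5
      have h6 : ∀ i, l (c i * (a i : Ω)) = l (c i) * a i := by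
        intro i
        have h7 : c i * (a i : Ω) = (a i) • c i := by rw [Rat.smul_def, mul_comm]
        rw [h7, map_rat_smul, smul_eq_mul, mul_comm]
      rw [Finset.sum_congr rfl fun i _ => h6 i] at h5
      have h7 : ∑ i ∈ t, ((l (c i) : ℚ) : Ω) * ((a i : Ω) * o v') =
          ((∑ i ∈ t, l (c i) * a i : ℚ) : Ω) * o v' := by
        rw [Rat.cast_sum, Finset.sum_mul]
        refine Finset.sum_congr rfl fun i _ => ?_
        rw [Rat.cast_mul]
        ring
      rw [h7, h5, Rat.cast_zero, zero_mul]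
  exact hl (linearIndependent_iff'.1 hb t (fun i => l (c i)) hz i0 hi0)

/-- The rank of the group of classes of cycles. -/
theorem finrank_span (jO : L →+* Ω) (hY : Big Y.X j) {s : ℕ}
    (hgen : ∀ (m : ℕ) (f : (TM Ω Y) [⋀^Fin (2 * m)]→ₗ[Ω] Ω), IsTateClass Ω Y s m f →
      Alg Ω Y (Fin (2 * m)) f) (hA : IsCycleSystem Ω Y s A) (n : ℕ) :
    finrank ℚ (A n) = finrank Ω (Submodule.span Ω
      (A n : Set ((TM Ω Y) [⋀^Fin (2 * n)]→ₗ[Ω] Ω))) := by
  classical
  let B := Basis.ofVectorSpace ℚ (A n)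
  let b : Basis.ofVectorSpaceIndex ℚ (A n) → (TM Ω Y) [⋀^Fin (2 * n)]→ₗ[Ω] Ω := fun i => B i
  have hb : LinearIndependent ℚ b :=
    B.linearIndependent.map' (A n).subtype (Submodule.ker_subtype _)
  have hb2 : LinearIndependent Ω b := indep jO hY hgen hA n b (fun i => (B i).2) hb
  have hspan : Submodule.span Ω (A n : Set ((TM Ω Y) [⋀^Fin (2 * n)]→ₗ[Ω] Ω)) =
      Submodule.span Ω (Set.range b) := by
    apply le_antisymm
    · rw [Submodule.span_le]
      intro z hz
      have h1 : z ∈ Submodule.span ℚ (Set.range b) := by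
        have h2 : (⟨z, hz⟩ : A n) ∈ Submodule.span ℚ (Set.range B) := by
          rw [B.span_eq]
          exact Submodule.mem_top
        have h3 := Submodule.mem_map_of_mem (f := (A n).subtype) h2
        rw [Submodule.map_span] at h3
        have h4 : ((A n).subtype : A n → _) '' Set.range B = Set.range b := by
          rw [← Set.range_comp]
          rfl
        rw [h4] at h3
        exact h3
      clear hz
      induction h1 using Submodule.span_induction with
      | mem w hw => exact Submodule.subset_span hw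
      | zero => exact Submodule.zero_mem _
      | add w w' _ _ h1 h2 => exact Submodule.add_mem _ h1 h2
      | smul c w _ h1 =>
        rw [rat_smul_form]
        exact Submodule.smul_mem _ _ h1
    · rw [Submodule.span_le]
      rintro _ ⟨i, rfl⟩
      exact Submodule.subset_span (B i).2
  rw [hspan, Module.finrank_eq_nat_card_basis B,
    Module.finrank_eq_nat_card_basis (Basis.span hb2)]

end

end Pool.Agent.W547.DR
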